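import Pool.Agent.K4H91.PM.Part

set_option autoImplicit false

/-! # Averaging over the permutations of the vertices -/

namespace Pool.Agent.K4H91.PM

open Finset

theorem avg (n : ℕ) (F : (Fin 3 ↪ Fin n) → ℕ) (τ0 : Fin 3 ↪ Fin n) :
    Fintype.card (Fin 3 ↪ Fin n) * ∑ g : Equiv.Perm (Fin n), F (g • τ0) =
      Fintype.card (Equiv.Perm (Fin n)) * ∑ τ, F τ := by
  classical
  have h1 : ∀ τ : Fin 3 ↪ Fin n, ∑ g : Equiv.Perm (Fin n), F (g • τ) =
      ∑ g : Equiv.Perm (Fin n), F (g • τ0) := by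
    intro τ
    obtain ⟨h, hh⟩ := (MulAction.isMultiplyPretransitive_iff (G := Equiv.Perm (Fin n))
      (α := Fin n) (n := 3)).1 (Equiv.Perm.isMultiplyPretransitive (Fin n) 3) τ0 τ
    rw [← hh]
    simp_rw [← mul_smul]
    exact Equiv.sum_comp (Equiv.mulRight h) (fun g : Equiv.Perm (Fin n) => F (g • τ0))
  have h2 : ∑ τ : Fin 3 ↪ Fin n, ∑ g : Equiv.Perm (Fin n), F (g • τ) =
      Fintype.card (Fin 3 ↪ Fin n) * ∑ g : Equiv.Perm (Fin n), F (g • τ0) := by
    rw [sum_congr rfl fun τ _ => h1 τ, sum_const, card_univ, smul_eq_mul]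
  have h3 : ∑ τ : Fin 3 ↪ Fin n, ∑ g : Equiv.Perm (Fin n), F (g • τ) =
      Fintype.card (Equiv.Perm (Fin n)) * ∑ τ, F τ := by
    rw [sum_comm]
    have : ∀ g : Equiv.Perm (Fin n), ∑ τ : Fin 3 ↪ Fin n, F (g • τ) = ∑ τ, F τ := fun g =>
      Equiv.sum_comp (MulAction.toPerm g) F
    rw [sum_congr rfl fun g _ => this g, sum_const, card_univ, smul_eq_mul]
  rw [← h2, h3]

/-- the number of the triples of different vertices such that exactly one of the two pairs is in
`X` -/
theorem splits_le {n : ℕ} (X : Fin n → Fin n → Prop) [∀ a b, Decidable (X a b)] :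
    splits X ≤ ∑ τ : Fin 3 ↪ Fin n, (if ¬ (X (τ 0) (τ 1) ↔ X (τ 1) (τ 2)) then 1 else 0) +
      n * (n - 1) := by
  classical
  obtain ⟨S, hS⟩ : ∃ S : Finset (Fin n × (Fin n × Fin n)), S = univ.filter fun q =>
      q.2.1 ≠ q.1 ∧ q.1 ≠ q.2.2 ∧ ¬ (X q.2.1 q.1 ↔ X q.1 q.2.2) := ⟨_, rfl⟩
  have h1 : splits X = S.card := by
    unfold splits
    rw [hS, card_filter, Fintype.sum_prod_type]
    refine sum_congr rfl fun b _ => ?_
    rw [card_filter]
  have h2 : (S.filter fun q => ¬ q.2.1 = q.2.2).card ≤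
      (univ.filter fun τ : Fin 3 ↪ Fin n => ¬ (X (τ 0) (τ 1) ↔ X (τ 1) (τ 2))).card := by
    refine le_trans (card_le_card (t := (univ.filter fun τ : Fin 3 ↪ Fin n =>
      ¬ (X (τ 0) (τ 1) ↔ X (τ 1) (τ 2))).image fun τ => (τ 1, (τ 0, τ 2))) ?_) card_image_le
    intro q hq
    rw [mem_filter, hS, mem_filter] at hq
    obtain ⟨⟨-, a1, a2, a4⟩, a3⟩ := hq
    have hinj : Function.Injective ![q.2.1, q.1, q.2.2] := by
      intro i j hij
      fin_cases i <;> fin_cases j <;> simp_all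
    rw [mem_image]
    exact ⟨⟨_, hinj⟩, mem_filter.2 ⟨mem_univ _, a4⟩, rfl⟩
  have h3 : (S.filter fun q => q.2.1 = q.2.2).card ≤ n * (n - 1) := by
    have : (S.filter fun q => q.2.1 = q.2.2).card ≤
        ((univ : Finset (Fin n)).sigma fun b => univ.filter fun a => a ≠ b).card := by
      refine card_le_card_of_injOn (fun q => ⟨q.1, q.2.1⟩) ?_ ?_
      · intro q hq
        rw [mem_coe, mem_filter, hS, mem_filter] at hq
        rw [mem_coe, mem_sigma, mem_filter]
        exact ⟨mem_univ _, mem_univ _, hq.1.2.1⟩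
      · intro q hq q' hq' h
        rw [mem_coe, mem_filter] at hq hq'
        simp only [Sigma.mk.injEq, heq_eq_eq] at h
        ext1
        · exact h.1
        · ext1
          · exact h.2
          · rw [← hq.2, ← hq'.2]
            exact h.2
    refine this.trans (le_of_eq ?_)
    rw [card_sigma, sum_congr rfl fun b _ => card_ne b, sum_const, card_univ, Fintype.card_fin,
      smul_eq_mul]
  have h4 := card_filter_add_card_filter_not (s := S) (p := fun q => q.2.1 = q.2.2)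
  rw [h1, ← card_filter]
  omega

end Pool.Agent.K4H91.PM
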