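import Pool.Agent.K4H91.PM.Main

set_option autoImplicit false

/-! # The lower bound for computations in the plane grid -/

namespace Pool.Agent.K4H91.PM

open Finset

variable {n : ℕ}

theorem cross_sum (P : Grid) (π : ℤ × ℤ → ℤ) (hπ : ∀ μ, |π (P.src μ) - π (P.dst μ)| ≤ 1)
    (G : Finset ℤ) (R : Finset P.Msg) :
    ∑ c ∈ G, (R.filter fun μ => ¬ (π (P.src μ) ≤ c ↔ π (P.dst μ) ≤ c)).card ≤ R.card := by
  classical
  simp_rw [card_filter]
  rw [sum_comm]
  calc _ ≤ ∑ _μ ∈ R, 1 := by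
        refine sum_le_sum fun μ _ => ?_
        rw [← card_filter, card_le_one]
        intro c hc c' hc'
        rw [mem_filter] at hc hc'
        have h := abs_le.1 (hπ μ)
        have h1 := hc.2
        have h2 := hc'.2
        by_cases a1 : π (P.src μ) ≤ c <;> by_cases a2 : π (P.dst μ) ≤ c <;>
          by_cases a3 : π (P.src μ) ≤ c' <;> by_cases a4 : π (P.dst μ) ≤ c' <;>
          simp only [a1, a2, a3, a4, iff_true, iff_false, not_true_eq_false,
            not_false_eq_true] at h1 h2 <;> omega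
    _ = R.card := by simp

theorem valid_card {m : ℕ} (hm : 3 * m ≤ n) :
    m * m ≤ (univ.filter fun q : Fin n × Fin n => q.1.val < m ∧ m ≤ q.2.val ∧
      q.2.val < 2 * m).card := by
  have h : (univ : Finset (Fin m × Fin m)).card ≤ (univ.filter fun q : Fin n × Fin n =>
      q.1.val < m ∧ m ≤ q.2.val ∧ q.2.val < 2 * m).card := by
    refine card_le_card_of_injOn (fun q => (⟨q.1.val, by have := q.1.2; omega⟩,
      ⟨m + q.2.val, by have := q.2.2; omega⟩)) ?_ ?_
    · intro q _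
      rw [mem_coe, mem_filter]
      have h1 := q.1.2
      have h2 := q.2.2
      exact ⟨mem_univ _, by simp only; omega, by simp only; omega, by simp only; omega⟩
    · rintro ⟨a, b⟩ _ ⟨a', b'⟩ _ h
      simp only [Prod.mk.injEq, Fin.mk.injEq] at h
      ext1
      · exact Fin.ext h.1
      · exact Fin.ext (by simp only; omega)
  rw [card_univ, Fintype.card_prod, Fintype.card_fin] at h
  exact h

/-- the average number of the split pairs -/
theorem avg_spl {m : ℕ} (hm : 3 * m ≤ n) (X : Fin n → Fin n → Prop)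
    [∀ a b, Decidable (X a b)] :
    m * m * (Fintype.card (Equiv.Perm (Fin n)) *
      ∑ τ : Fin 3 ↪ Fin n, (if ¬ (X (τ 0) (τ 1) ↔ X (τ 1) (τ 2)) then 1 else 0)) ≤
    Fintype.card (Fin 3 ↪ Fin n) * ∑ g : Equiv.Perm (Fin n), (Spl m g X).card := by
  classical
  obtain ⟨F, hF⟩ : ∃ F : (Fin 3 ↪ Fin n) → ℕ, ∀ τ, F τ =
      if ¬ (X (τ 0) (τ 1) ↔ X (τ 1) (τ 2)) then 1 else 0 := ⟨_, fun _ => rfl⟩
  obtain ⟨V, hV⟩ : ∃ V : Finset (Fin n × Fin n), V = univ.filter fun q =>
      q.1.val < m ∧ m ≤ q.2.val ∧ q.2.val < 2 * m := ⟨_, rfl⟩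
  have h1 : ∑ g : Equiv.Perm (Fin n), (Spl m g X).card = ∑ q ∈ V, ∑ g : Equiv.Perm (Fin n),
      (if ¬ (X (g q.1) (g q.2) ↔ X (g q.2) (g (up m q.1))) then 1 else 0) := by
    rw [sum_comm]
    refine sum_congr rfl fun g _ => ?_
    rw [← card_filter]
    unfold Spl
    rw [hV, filter_filter]
    congr 1
    refine filter_congr fun q _ => ?_
    tauto
  have h2 : ∀ q ∈ V, Fintype.card (Fin 3 ↪ Fin n) * ∑ g : Equiv.Perm (Fin n),
      (if ¬ (X (g q.1) (g q.2) ↔ X (g q.2) (g (up m q.1))) then 1 else 0) =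
      Fintype.card (Equiv.Perm (Fin n)) * ∑ τ, F τ := by
    intro q hq
    rw [hV, mem_filter] at hq
    obtain ⟨-, q1, q2, q3⟩ := hq
    have hu := up_val hm q1
    have hinj : Function.Injective ![q.1, q.2, up m q.1] := by
      have e1 : q.1 ≠ q.2 := fun h => by rw [h] at q1; omega
      have e2 : q.2 ≠ up m q.1 := fun h => by rw [← h] at hu; omega
      have e3 : q.1 ≠ up m q.1 := fun h => by rw [← h] at hu; omega
      intro i j hij
      fin_cases i <;> fin_cases j <;> simp_all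
    rw [← avg n F ⟨_, hinj⟩]
    congr 1
    refine sum_congr rfl fun g _ => ?_
    rw [hF]
    rfl
  have h3 : Fintype.card (Fin 3 ↪ Fin n) * ∑ g : Equiv.Perm (Fin n), (Spl m g X).card =
      V.card * (Fintype.card (Equiv.Perm (Fin n)) * ∑ τ, F τ) := by
    rw [h1, mul_sum, sum_congr rfl h2, sum_const, smul_eq_mul]
  rw [h3]
  simp only [← hF]
  refine Nat.mul_le_mul_right _ ?_
  rw [hV]
  exact valid_card hm

theorem spl_ge {m : ℕ} (hm : 3 * m ≤ n) (hn : 3 ≤ n) (X : Fin n → Fin n → Prop)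
    [∀ a b, Decidable (X a b)] (h1 : n * (n - 1) ≤ 8 * ∑ b, inX X b)
    (h2 : n * (n - 1) ≤ 8 * ∑ b, (n - 1 - inX X b)) :
    (m : ℝ) * m * Fintype.card (Equiv.Perm (Fin n)) * ((n : ℝ) - 57) ≤
      56 * ((n : ℝ) - 2) * ((∑ g : Equiv.Perm (Fin n), (Spl m g X).card : ℕ) : ℝ) := by
  classical
  have a1 := splits_ge X (by omega) h1 h2
  have a2 := splits_le X
  have a3 := avg_spl hm X
  obtain ⟨F, hF⟩ : ∃ F : ℕ, F = ∑ τ : Fin 3 ↪ Fin n,
      (if ¬ (X (τ 0) (τ 1) ↔ X (τ 1) (τ 2)) then 1 else 0) := ⟨_, rfl⟩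
  obtain ⟨Z, hZ⟩ : ∃ Z : ℕ, Z = ∑ g : Equiv.Perm (Fin n), (Spl m g X).card := ⟨_, rfl⟩
  obtain ⟨N, hN⟩ : ∃ N : ℕ, N = Fintype.card (Equiv.Perm (Fin n)) := ⟨_, rfl⟩
  rw [← hF] at a2 a3
  rw [← hZ, ← hN] at a3 ⊢
  have hD : Fintype.card (Fin 3 ↪ Fin n) = n * ((n - 1) * (n - 2)) := by
    rw [Fintype.card_embedding_eq, Fintype.card_fin, Fintype.card_fin]
    simp [Nat.descFactorial]
    ring
  rw [hD] at a3
  have hn3 : (3 : ℝ) ≤ n := by exact_mod_cast hn
  have b2 : (splits X : ℝ) ≤ F + n * (n - 1) := by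
    have : ((splits X : ℕ) : ℝ) ≤ ((F + n * (n - 1) : ℕ) : ℝ) := by exact_mod_cast a2
    rw [Nat.cast_add, Nat.cast_mul, Nat.cast_sub (by omega)] at this
    simpa using this
  have b3 : (m : ℝ) * m * (N * F) ≤ n * ((n - 1) * (n - 2)) * Z := by
    have : ((m * m * (N * F) : ℕ) : ℝ) ≤ ((n * ((n - 1) * (n - 2)) * Z : ℕ) : ℝ) := by
      exact_mod_cast a3
    rw [Nat.cast_mul, Nat.cast_mul, Nat.cast_mul, Nat.cast_mul, Nat.cast_mul, Nat.cast_mul,
      Nat.cast_sub (by omega), Nat.cast_sub (by omega)] at this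
    simpa using this
  -- cancel `n (n - 1)`
  have hnn : (0 : ℝ) < n * (n - 1) := mul_pos (by linarith) (by linarith)
  have b4 : (n : ℝ) * (n - 1) * (n - 57) ≤ 56 * F := by nlinarith
  have b5 : (0 : ℝ) ≤ (m : ℝ) * m * N := by positivity
  have b6 := mul_le_mul_of_nonneg_left b4 b5
  refine le_of_mul_le_mul_left ?_ hnn
  calc (n : ℝ) * (n - 1) * ((m : ℝ) * m * N * (n - 57))
      = (m : ℝ) * m * N * ((n : ℝ) * (n - 1) * (n - 57)) := by ring
    _ ≤ (m : ℝ) * m * N * (56 * F) := b6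
    _ = 56 * ((m : ℝ) * m * (N * F)) := by ring
    _ ≤ 56 * (n * ((n - 1) * (n - 2)) * Z) := by linarith
    _ = _ := by ring

/-! ## all cuts of one direction -/

theorem core (hn : 58 ≤ n) (P : Grid) (pos : Fin n → Fin n → ℤ × ℤ) (T : ℕ)
    (hacc : ∀ w : Fin n → Fin n → ℕ, IsWeights w → AllShortest w → P.Accepts (inp pos w) T)
    (hsound : ∀ w : Fin n → Fin n → ℕ, IsWeights w → ¬ AllShortest w →
      ∀ T, ¬ P.Accepts (inp pos w) T)
    (π : ℤ × ℤ → ℤ) (hπ : ∀ μ, |π (P.src μ) - π (P.dst μ)| ≤ 1) (G : Finset ℤ)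
    (hG : ∀ c ∈ G, n * (n - 1) ≤ 8 * ∑ b, inX (fun a b => π (pos a b) ≤ c) b ∧
      n * (n - 1) ≤ 8 * ∑ b, (n - 1 - inX (fun a b => π (pos a b) ≤ c) b))
    (L : ℕ) (hL : 1 ≤ L) (hM : Fintype.card P.Msg + 1 ≤ 2 ^ L) :
    (G.card : ℝ) * (((n / 3 : ℕ) : ℝ) * ((n / 3 : ℕ) : ℝ)) * ((n : ℝ) - 57) ≤
      112 * ((n : ℝ) - 2) * (L * T) := by
  classical
  obtain ⟨m, hm⟩ : ∃ m, m = n / 3 := ⟨_, rfl⟩
  have hm3 : 3 * m ≤ n := by omega
  rw [← hm]
  have hex : ∀ (g : Equiv.Perm (Fin n)) (σ : Fin n × Fin n → Bool), ∃ R : Finset P.Msg,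
      R.card ≤ T ∧ ∀ p, P.ok p (inp pos (W m g σ) p)
        {μ | μ ∈ R ∧ (P.src μ = p ∨ P.dst μ = p)} := fun g σ =>
    hacc _ (W_weights m g σ) (W_short m g σ)
  choose R hR1 hR2 using hex
  obtain ⟨E, hE⟩ : ∃ E : ℕ, E = 2 ^ Fintype.card (Fin n × Fin n) := ⟨_, rfl⟩
  obtain ⟨N, hN⟩ : ∃ N : ℕ, N = Fintype.card (Equiv.Perm (Fin n)) := ⟨_, rfl⟩
  have hE0 : 0 < E := by rw [hE]; positivity
  have hN0 : 0 < N := by rw [hN]; exact Fintype.card_pos
  -- one cut and one permutation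
  have h1 : ∀ c ∈ G, ∀ g : Equiv.Perm (Fin n),
      E * (Spl m g (fun a b => π (pos a b) ≤ c)).card ≤ 2 * L *
        ∑ σ : Fin n × Fin n → Bool,
          ((R g σ).filter fun μ => ¬ (π (P.src μ) ≤ c ↔ π (P.dst μ) ≤ c)).card := by
    intro c _ g
    rw [hE]
    refine average (Spl m g (fun a b => π (pos a b) ≤ c))
      (fun σ => (R g σ).filter fun μ => ¬ (π (P.src μ) ≤ c ↔ π (P.dst μ) ≤ c)) ?_ L hL hM
    intro σ σ' a1 a2
    exact fool P pos hm3 hsound g (R g) (hR2 g) (fun p => π p ≤ c) σ σ' a1 a2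
  -- the sum
  have h2 : ∑ c ∈ G, ∑ g : Equiv.Perm (Fin n),
      E * (Spl m g (fun a b => π (pos a b) ≤ c)).card ≤ E * (2 * (L * (N * T))) := by
    calc _ ≤ ∑ c ∈ G, ∑ g : Equiv.Perm (Fin n), 2 * L * ∑ σ : Fin n × Fin n → Bool,
          ((R g σ).filter fun μ => ¬ (π (P.src μ) ≤ c ↔ π (P.dst μ) ≤ c)).card :=
          sum_le_sum fun c hc => sum_le_sum fun g _ => h1 c hc g
      _ = 2 * L * ∑ g : Equiv.Perm (Fin n), ∑ σ : Fin n × Fin n → Bool, ∑ c ∈ G,
          ((R g σ).filter fun μ => ¬ (π (P.src μ) ≤ c ↔ π (P.dst μ) ≤ c)).card := by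
          simp_rw [← mul_sum]
          congr 1
          rw [sum_comm]
          refine sum_congr rfl fun g _ => ?_
          rw [sum_comm]
      _ ≤ 2 * L * ∑ _g : Equiv.Perm (Fin n), ∑ _σ : Fin n × Fin n → Bool, T := by
          refine Nat.mul_le_mul_left _ (sum_le_sum fun g _ => sum_le_sum fun σ _ => ?_)
          exact (cross_sum P π hπ G (R g σ)).trans (hR1 g σ)
      _ = _ := by
          rw [sum_const, sum_const, card_univ, card_univ, ← hN, Fintype.card_fun,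
            Fintype.card_bool, ← hE, smul_eq_mul, smul_eq_mul]
          ring
  have h3 : ∑ c ∈ G, ∑ g : Equiv.Perm (Fin n),
      (Spl m g (fun a b => π (pos a b) ≤ c)).card ≤ 2 * (L * (N * T)) := by
    simp_rw [← mul_sum] at h2
    exact Nat.le_of_mul_le_mul_left h2 hE0
  have h4 : (G.card : ℝ) * ((m : ℝ) * m * N * ((n : ℝ) - 57)) ≤
      56 * ((n : ℝ) - 2) * ((∑ c ∈ G, ∑ g : Equiv.Perm (Fin n),
        (Spl m g (fun a b => π (pos a b) ≤ c)).card : ℕ) : ℝ) := by
    rw [Nat.cast_sum, mul_sum, ← nsmul_eq_mul, ← sum_const]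
    refine sum_le_sum fun c hc => ?_
    rw [hN]
    exact spl_ge hm3 (by omega) (fun a b => π (pos a b) ≤ c) (hG c hc).1 (hG c hc).2
  have h5 : ((∑ c ∈ G, ∑ g : Equiv.Perm (Fin n),
        (Spl m g (fun a b => π (pos a b) ≤ c)).card : ℕ) : ℝ) ≤ 2 * (L * (N * T)) := by
    exact_mod_cast h3
  have hn2 : (58 : ℝ) ≤ n := by exact_mod_cast hn
  have h6 := h4.trans (mul_le_mul_of_nonneg_left h5 (by linarith : (0 : ℝ) ≤ 56 * ((n : ℝ) - 2)))
  have hN0' : (0 : ℝ) < N := by exact_mod_cast hN0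
  refine le_of_mul_le_mul_left ?_ hN0'
  calc (N : ℝ) * ((G.card : ℝ) * ((m : ℝ) * m) * ((n : ℝ) - 57))
      = (G.card : ℝ) * ((m : ℝ) * m * N * ((n : ℝ) - 57)) := by ring
    _ ≤ _ := h6
    _ = _ := by ring

/-! ## balanced lines -/

theorem card_pairs (Y : Fin n → Fin n → Prop) [∀ a b, Decidable (Y a b)] :
    (univ.filter fun i : {q : Fin n × Fin n // q.1 ≠ q.2} => Y i.1.1 i.1.2).card =
      ∑ b, (univ.filter fun a => a ≠ b ∧ Y a b).card := by
  classical
  have h1 : (univ.filter fun i : {q : Fin n × Fin n // q.1 ≠ q.2} => Y i.1.1 i.1.2).card =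
      (univ.filter fun q : Fin n × Fin n => q.1 ≠ q.2 ∧ Y q.1 q.2).card := by
    refine card_bij (fun i _ => i.1) ?_ ?_ ?_
    · intro i hi
      rw [mem_filter] at hi ⊢
      exact ⟨mem_univ _, i.2, hi.2⟩
    · intro i _ j _ h
      exact Subtype.ext h
    · intro q hq
      rw [mem_filter] at hq
      exact ⟨⟨q, hq.2.1⟩, by rw [mem_filter]; exact ⟨mem_univ _, hq.2.2⟩, rfl⟩
  rw [h1, card_filter, Fintype.sum_prod_type_right]
  refine sum_congr rfl fun b _ => ?_
  rw [card_filter]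

theorem card_pairs_total : Fintype.card {q : Fin n × Fin n // q.1 ≠ q.2} = n * (n - 1) := by
  classical
  have h := card_pairs (n := n) (fun _ _ => True)
  simp only [and_true, filter_true, card_univ] at h
  rw [h, sum_congr rfl fun b _ => card_ne b, sum_const, card_univ, Fintype.card_fin, smul_eq_mul]

theorem main (hn : 112 ≤ n) (P : Grid) (pos : Fin n → Fin n → ℤ × ℤ)
    (hpos : ∀ a b c d, a ≠ b → c ≠ d → pos a b = pos c d → a = c ∧ b = d) (T : ℕ)
    (hacc : ∀ w : Fin n → Fin n → ℕ, IsWeights w → AllShortest w → P.Accepts (inp pos w) T)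
    (hsound : ∀ w : Fin n → Fin n → ℕ, IsWeights w → ¬ AllShortest w →
      ∀ T, ¬ P.Accepts (inp pos w) T) :
    n ^ 3 ≤ 4300 * (T * Nat.clog 2 (Fintype.card P.Msg + 1)) := by
  classical
  obtain ⟨f, hf⟩ : ∃ f : {q : Fin n × Fin n // q.1 ≠ q.2} → ℤ × ℤ, ∀ i,
      f i = pos i.1.1 i.1.2 := ⟨_, fun _ => rfl⟩
  have hfinj : Function.Injective f := by
    intro i j h
    rw [hf, hf] at h
    have := hpos _ _ _ _ i.2 j.2 h
    exact Subtype.ext (Prod.ext this.1 this.2)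
  obtain ⟨G1, G2, h1, h2, h3⟩ := box f hfinj
  rw [card_pairs_total] at h1 h2 h3
  -- both directions
  have hbal : ∀ (π : ℤ × ℤ → ℤ) (G : Finset ℤ),
      (∀ c ∈ G, n * (n - 1) ≤ 8 * (univ.filter fun i => π (f i) ≤ c).card ∧
        n * (n - 1) ≤ 8 * (univ.filter fun i => c < π (f i)).card) →
      ∀ c ∈ G, n * (n - 1) ≤ 8 * ∑ b, inX (fun a b => π (pos a b) ≤ c) b ∧
        n * (n - 1) ≤ 8 * ∑ b, (n - 1 - inX (fun a b => π (pos a b) ≤ c) b) := by
    intro π G h c hc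
    obtain ⟨k1, k2⟩ := h c hc
    constructor
    · have e : (univ.filter fun i => π (f i) ≤ c).card =
          ∑ b, inX (fun a b => π (pos a b) ≤ c) b := by
        simp only [hf]
        exact card_pairs (fun a b => π (pos a b) ≤ c)
      rw [← e]
      exact k1
    · have e : (univ.filter fun i => c < π (f i)).card =
          ∑ b, (n - 1 - inX (fun a b => π (pos a b) ≤ c) b) := by
        simp only [hf]
        have := card_pairs (fun a b => ¬ π (pos a b) ≤ c)
        simp only [not_le] at this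
        rw [this]
        refine sum_congr rfl fun b _ => ?_
        have h4 := inX_add (fun a b => π (pos a b) ≤ c) b
        simp only [not_le] at h4
        omega
      rw [← e]
      exact k2
  obtain ⟨L, hLdef⟩ : ∃ L, L = Nat.clog 2 (Fintype.card P.Msg + 1) := ⟨_, rfl⟩
  have hM : Fintype.card P.Msg + 1 ≤ 2 ^ L := by
    rw [hLdef]
    exact Nat.le_pow_clog (b := 2) (by norm_num) _
  have key : ∀ (π : ℤ × ℤ → ℤ) (G : Finset ℤ), (∀ μ, |π (P.src μ) - π (P.dst μ)| ≤ 1) →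
      (∀ c ∈ G, n * (n - 1) ≤ 8 * (univ.filter fun i => π (f i) ≤ c).card ∧
        n * (n - 1) ≤ 8 * (univ.filter fun i => c < π (f i)).card) →
      n ≤ 2 * (G.card + 1) → n ^ 3 ≤ 4300 * (T * L) := by
    intro π G hπ hG hcard
    -- `L` is positive
    rcases Nat.eq_zero_or_pos L with hL0 | hL
    · -- no messages
      have hM0 : Fintype.card P.Msg = 0 := by
        rw [hL0] at hM
        simpa using hM
      have hc := core (by omega) P pos 0 (by
        intro w hw hs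
        obtain ⟨R, -, hR⟩ := hacc w hw hs
        refine ⟨R, ?_, hR⟩
        have : R.card ≤ Fintype.card P.Msg := by
          rw [← card_univ]
          exact card_le_card (subset_univ _)
        omega) hsound π hπ G (hbal π G hG) 1 le_rfl (by rw [hM0]; norm_num)
      exfalso
      have hn' : (112 : ℝ) ≤ n := by exact_mod_cast hn
      have hG' : (0 : ℝ) < G.card := by
        have : 0 < G.card := by omega
        exact_mod_cast this
      have hm' : (0 : ℝ) < ((n / 3 : ℕ) : ℝ) := by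
        have : 0 < n / 3 := by omega
        exact_mod_cast this
      have : 0 < (G.card : ℝ) * (((n / 3 : ℕ) : ℝ) * ((n / 3 : ℕ) : ℝ)) * ((n : ℝ) - 57) :=
        mul_pos (mul_pos hG' (mul_pos hm' hm')) (by linarith)
      simp at hc
      linarith
    · have hc := core (by omega) P pos T hacc hsound π hπ G (hbal π G hG) L hL hM
      obtain ⟨m, hm⟩ : ∃ m, m = n / 3 := ⟨_, rfl⟩
      rw [← hm] at hc
      have hm3 : n ≤ 3 * m + 2 := by omega
      have a1 : (n : ℝ) ≤ 3 * m + 2 := by exact_mod_cast hm3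
      have a2 : (n : ℝ) ≤ 2 * (G.card + 1) := by exact_mod_cast hcard
      have a3 : (112 : ℝ) ≤ n := by exact_mod_cast hn
      obtain ⟨x, hx⟩ : ∃ x : ℝ, x = (n : ℝ) - 2 := ⟨_, rfl⟩
      have hx0 : 110 ≤ x := by linarith
      have b1 : x ≤ 3 * m := by linarith
      have b2 : x ≤ 2 * G.card := by linarith
      have b3 : x / 2 ≤ (n : ℝ) - 57 := by linarith
      have c1 : x * x ≤ 9 * ((m : ℝ) * m) := by nlinarith
      have c2 : x * (x * x) ≤ 2 * G.card * (9 * ((m : ℝ) * m)) :=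
        mul_le_mul b2 c1 (by positivity) (by positivity)
      have c3 : (G.card : ℝ) * ((m : ℝ) * m) * (x / 2) ≤ 112 * x * (L * T) := by
        refine le_trans (mul_le_mul_of_nonneg_left b3 (by positivity)) ?_
        rw [hx]
        exact hc
      have c4 : (G.card : ℝ) * ((m : ℝ) * m) ≤ 224 * (L * T) := by
        have : (G.card : ℝ) * ((m : ℝ) * m) * x ≤ 224 * (L * T) * x := by linarith
        exact le_of_mul_le_mul_right this (by linarith)
      have c5 : x * (x * x) ≤ 4032 * (L * T) := by linarith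
      have c6 : (n : ℝ) ^ 3 * 4032 ≤ 4300 * (x * (x * x)) := by
        have hnx : (n : ℝ) = x + 2 := by linarith
        rw [hnx]
        nlinarith [mul_nonneg (by linarith : (0 : ℝ) ≤ x - 110) (by linarith : (0 : ℝ) ≤ x),
          mul_nonneg (mul_nonneg (by linarith : (0 : ℝ) ≤ x - 110)
            (by linarith : (0 : ℝ) ≤ x)) (by linarith : (0 : ℝ) ≤ x)]
      have c7 : (n : ℝ) ^ 3 ≤ 4300 * (T * L) := by nlinarith
      exact_mod_cast c7
  rw [← hLdef]
  have hcase : n ≤ 2 * (G1.card + 1) ∨ n ≤ 2 * (G2.card + 1) := by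
    by_contra hcon
    push Not at hcon
    obtain ⟨q1, q2⟩ := hcon
    have q3 : 2 * (G1.card + 1) * (2 * (G2.card + 1)) ≤ (n - 1) * (n - 1) :=
      Nat.mul_le_mul (by omega) (by omega)
    have q4 : n * (n - 1) * 2 ≤ (n - 1) * (n - 1) := by
      calc n * (n - 1) * 2 ≤ 2 * ((G1.card + 1) * (G2.card + 1)) * 2 := Nat.mul_le_mul_right _ h3
        _ = 2 * (G1.card + 1) * (2 * (G2.card + 1)) := by ring
        _ ≤ _ := q3
    have q5 : (n - 1) * (n - 1) ≤ n * (n - 1) := Nat.mul_le_mul_right _ (by omega)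
    have q6 : 0 < n * (n - 1) := Nat.mul_pos (by omega) (by omega)
    omega
  rcases hcase with h | h
  · refine key (fun p => p.1) G1 (fun μ => ?_) h1 h
    have := P.near μ
    have h5 : 0 ≤ |(P.src μ).2 - (P.dst μ).2| := abs_nonneg _
    linarith
  · refine key (fun p => p.2) G2 (fun μ => ?_) h2 h
    have := P.near μ
    have h5 : 0 ≤ |(P.src μ).1 - (P.dst μ).1| := abs_nonneg _
    linarith

end Pool.Agent.K4H91.PM
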