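import Mathlib

set_option autoImplicit false

/-! # Many balanced lines -/

namespace Pool.Agent.K4H91.PM

open Finset

variable {ι : Type} [Fintype ι]

theorem low (f : ι → ℤ) :
    8 * (univ.filter fun i => 8 * (univ.filter fun j => f j ≤ f i).card < Fintype.card ι).card ≤
      Fintype.card ι := by
  classical
  obtain ⟨A, hA⟩ : ∃ A : Finset ι, A = univ.filter fun i =>
      8 * (univ.filter fun j => f j ≤ f i).card < Fintype.card ι := ⟨_, rfl⟩
  rw [← hA]
  rcases A.eq_empty_or_nonempty with h | h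
  · rw [h]; simp
  obtain ⟨i, hi, hmax⟩ := exists_max_image A f h
  have h1 := hi
  rw [hA, mem_filter] at h1
  have h2 : A.card ≤ (univ.filter fun j => f j ≤ f i).card := card_le_card fun j hj => by
    rw [mem_filter]
    exact ⟨mem_univ _, hmax j hj⟩
  omega

theorem high (f : ι → ℤ) :
    8 * (univ.filter fun i => 8 * (univ.filter fun j => f i ≤ f j).card < Fintype.card ι).card ≤
      Fintype.card ι := by
  have h := low fun i => - f i
  simp only [neg_le_neg_iff] at h
  exact h

theorem line (f : ι → ℤ) :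
    ∃ (G : Finset ℤ) (Q : Finset ι),
      (∀ c ∈ G, Fintype.card ι ≤ 8 * (univ.filter fun i => f i ≤ c).card ∧
        Fintype.card ι ≤ 8 * (univ.filter fun i => c < f i).card) ∧
      3 * Fintype.card ι ≤ 4 * Q.card ∧ (Q.image f).card ≤ G.card + 1 := by
  classical
  obtain ⟨A, hA⟩ : ∃ A : Finset ι, A = univ.filter fun i =>
      8 * (univ.filter fun j => f j ≤ f i).card < Fintype.card ι := ⟨_, rfl⟩
  obtain ⟨B, hB⟩ : ∃ B : Finset ι, B = univ.filter fun i =>
      8 * (univ.filter fun j => f i ≤ f j).card < Fintype.card ι := ⟨_, rfl⟩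
  have hA1 := low f
  have hB1 := high f
  rw [← hA] at hA1
  rw [← hB] at hB1
  obtain ⟨Q, hQ⟩ : ∃ Q : Finset ι, Q = (A ∪ B)ᶜ := ⟨_, rfl⟩
  have hQcard : 3 * Fintype.card ι ≤ 4 * Q.card := by
    have h1 := card_add_card_compl (A ∪ B)
    have h2 := card_union_le A B
    rw [← hQ] at h1
    omega
  have hmem : ∀ i ∈ Q, Fintype.card ι ≤ 8 * (univ.filter fun j => f j ≤ f i).card ∧
      Fintype.card ι ≤ 8 * (univ.filter fun j => f i ≤ f j).card := by
    intro i hi
    rw [hQ, mem_compl, mem_union, hA, hB, mem_filter, mem_filter] at hi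
    push Not at hi
    exact ⟨hi.1 (mem_univ _), hi.2 (mem_univ _)⟩
  rcases Q.eq_empty_or_nonempty with h | h
  · exact ⟨∅, Q, by simp, hQcard, by rw [h]; simp⟩
  obtain ⟨ia, hia, hmin⟩ := exists_min_image Q f h
  obtain ⟨ib, hib, hmax⟩ := exists_max_image Q f h
  have hab : f ia ≤ f ib := hmin ib hib
  refine ⟨Ico (f ia) (f ib), Q, fun c hc => ?_, hQcard, ?_⟩
  · rw [mem_Ico] at hc
    constructor
    · refine (hmem ia hia).1.trans (Nat.mul_le_mul_left _ (card_le_card fun j hj => ?_))
      rw [mem_filter] at hj ⊢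
      exact ⟨mem_univ _, hj.2.trans hc.1⟩
    · refine (hmem ib hib).2.trans (Nat.mul_le_mul_left _ (card_le_card fun j hj => ?_))
      rw [mem_filter] at hj ⊢
      exact ⟨mem_univ _, lt_of_lt_of_le hc.2 hj.2⟩
  · have h1 : Q.image f ⊆ Icc (f ia) (f ib) := by
      intro z hz
      obtain ⟨i, hi, rfl⟩ := mem_image.1 hz
      rw [mem_Icc]
      exact ⟨hmin i hi, hmax i hi⟩
    have h2 := card_le_card h1
    rw [Int.card_Icc] at h2
    rw [Int.card_Ico]
    omega

/-- In one of the two directions there are many balanced lines. -/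
theorem box (f : ι → ℤ × ℤ) (hf : Function.Injective f) :
    ∃ G1 G2 : Finset ℤ,
      (∀ c ∈ G1, Fintype.card ι ≤ 8 * (univ.filter fun i => (f i).1 ≤ c).card ∧
        Fintype.card ι ≤ 8 * (univ.filter fun i => c < (f i).1).card) ∧
      (∀ c ∈ G2, Fintype.card ι ≤ 8 * (univ.filter fun i => (f i).2 ≤ c).card ∧
        Fintype.card ι ≤ 8 * (univ.filter fun i => c < (f i).2).card) ∧
      Fintype.card ι ≤ 2 * ((G1.card + 1) * (G2.card + 1)) := by
  classical
  obtain ⟨G1, Q1, h1, h2, h3⟩ := line fun i => (f i).1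
  obtain ⟨G2, Q2, k1, k2, k3⟩ := line fun i => (f i).2
  refine ⟨G1, G2, h1, k1, ?_⟩
  have a1 : (Q1 ∩ Q2).card ≤ ((Q1.image fun i => (f i).1) ×ˢ (Q2.image fun i => (f i).2)).card := by
    refine card_le_card_of_injOn f ?_ hf.injOn
    intro i hi
    rw [mem_coe, mem_inter] at hi
    rw [mem_coe, mem_product]
    exact ⟨mem_image_of_mem _ hi.1, mem_image_of_mem _ hi.2⟩
  rw [card_product] at a1
  have a2 := card_union_add_card_inter Q1 Q2
  have a3 : (Q1 ∪ Q2).card ≤ Fintype.card ι := by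
    rw [← card_univ]
    exact card_le_card (subset_univ _)
  have a4 := Nat.mul_le_mul h3 k3
  omega

end Pool.Agent.K4H91.PM
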