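import Mathlib

set_option autoImplicit false

/-! # Computations in the plane grid -/

namespace Pool.Agent.K4H91.PM

open Finset

/-- A nondeterministic computer whose processors are the cells of the plane grid `ℤ × ℤ`. `Msg` is
the finite set of the possible messages (a message comprises all its data: its contents, the time,
...), the message `μ` is sent from the cell `src μ` to the neighbouring cell `dst μ`. The local rule
`ok p x V` says whether the cell `p` with input `x` (`none` if the cell has no input) agrees that `V`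
is the set of all messages which it sends or receives. The rules are arbitrary. -/
structure Grid where
  Msg : Type
  fin : Fintype Msg
  src : Msg → ℤ × ℤ
  dst : Msg → ℤ × ℤ
  near : ∀ μ, |(src μ).1 - (dst μ).1| + |(src μ).2 - (dst μ).2| = 1
  ok : ℤ × ℤ → Option ℕ → Set Msg → Prop

attribute [instance] Grid.fin

/-- The computer accepts the input `x` with at most `T` messages: there is a set of at most `T`
messages on which all cells agree. -/
def Grid.Accepts (P : Grid) (x : ℤ × ℤ → Option ℕ) (T : ℕ) : Prop :=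
  ∃ R : Finset P.Msg, R.card ≤ T ∧
    ∀ p, P.ok p (x p) {μ | μ ∈ R ∧ (P.src μ = p ∨ P.dst μ = p)}

/-- Cut and paste. -/
theorem paste (P : Grid) (side : ℤ × ℤ → Prop) [DecidablePred side]
    (x x' : ℤ × ℤ → Option ℕ) (R R' : Finset P.Msg)
    (h : ∀ p, P.ok p (x p) {μ | μ ∈ R ∧ (P.src μ = p ∨ P.dst μ = p)})
    (h' : ∀ p, P.ok p (x' p) {μ | μ ∈ R' ∧ (P.src μ = p ∨ P.dst μ = p)})
    (hc : ∀ μ, ¬ (side (P.src μ) ↔ side (P.dst μ)) → (μ ∈ R ↔ μ ∈ R')) :
    ∃ T, P.Accepts (fun p => if side p then x p else x' p) T := by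
  classical
  refine ⟨_, R.filter (fun μ => side (P.src μ) ∨ side (P.dst μ)) ∪
    R'.filter (fun μ => ¬ side (P.src μ) ∨ ¬ side (P.dst μ)), le_rfl, fun p => ?_⟩
  by_cases hp : side p
  · simp only [if_pos hp]
    convert! h p using 1
    ext μ
    simp only [mem_union, mem_filter, Set.mem_ofPred_eq]
    constructor
    · rintro ⟨h1 | h1, h2⟩
      · exact ⟨h1.1, h2⟩
      · refine ⟨?_, h2⟩
        refine (hc μ ?_).2 h1.1
        rcases h2 with h2 | h2 <;> rw [h2] at h1 ⊢ <;> tauto
    · rintro ⟨h1, h2⟩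
      refine ⟨Or.inl ⟨h1, ?_⟩, h2⟩
      rcases h2 with h2 | h2
      · exact Or.inl (h2 ▸ hp)
      · exact Or.inr (h2 ▸ hp)
  · simp only [if_neg hp]
    convert! h' p using 1
    ext μ
    simp only [mem_union, mem_filter, Set.mem_ofPred_eq]
    constructor
    · rintro ⟨h1 | h1, h2⟩
      · refine ⟨?_, h2⟩
        refine (hc μ ?_).1 h1.1
        rcases h2 with h2 | h2 <;> rw [h2] at h1 ⊢ <;> tauto
      · exact ⟨h1.1, h2⟩
    · rintro ⟨h1, h2⟩
      refine ⟨Or.inr ⟨h1, ?_⟩, h2⟩
      rcases h2 with h2 | h2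
      · exact Or.inl (h2 ▸ hp)
      · exact Or.inr (h2 ▸ hp)

/-! ## counting -/

theorem card_small {M : Type} [Fintype M] [DecidableEq M] (l : ℕ) :
    (univ.filter fun A : Finset M => A.card ≤ l).card ≤ (Fintype.card M + 1) ^ l := by
  classical
  have h : (univ.filter fun A : Finset M => A.card ≤ l) ⊆
      (univ : Finset (Fin l → Option M)).image fun f => univ.filter fun μ => ∃ j, f j = some μ := by
    intro A hA
    rw [mem_filter] at hA
    rw [mem_image]
    refine ⟨fun j => if h : j.val < A.card then some (A.equivFin.symm ⟨j.val, h⟩).1 else none,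
      mem_univ _, ?_⟩
    ext μ
    simp only [mem_filter, mem_univ, true_and]
    constructor
    · rintro ⟨j, hj⟩
      split_ifs at hj with h
      have := Option.some.inj hj
      rw [← this]
      exact (A.equivFin.symm ⟨j.val, h⟩).2
    · intro hμ
      refine ⟨⟨(A.equivFin ⟨μ, hμ⟩).val, by have := (A.equivFin ⟨μ, hμ⟩).2; omega⟩, ?_⟩
      simp
  refine (card_le_card h).trans (card_image_le.trans ?_)
  simp [Fintype.card_option]

theorem few {ι M : Type} [Fintype ι] [DecidableEq ι] [Fintype M] [DecidableEq M] (S : Finset ι)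
    (cr : (ι → Bool) → Finset M)
    (hinj : ∀ σ σ' : ι → Bool, (∀ i, i ∉ S → σ i = σ' i) → cr σ = cr σ' → σ = σ') (l : ℕ) :
    (univ.filter fun σ : ι → Bool => (cr σ).card ≤ l).card ≤
      2 ^ (Fintype.card ι - S.card) * (Fintype.card M + 1) ^ l := by
  classical
  have h1 : (univ.filter fun σ : ι → Bool => (cr σ).card ≤ l).card ≤
      ((univ : Finset ({i // i ∉ S} → Bool)) ×ˢ
        (univ.filter fun A : Finset M => A.card ≤ l)).card := by
    refine card_le_card_of_injOn (fun σ => (fun i => σ i.1, cr σ)) ?_ ?_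
    · intro σ hσ
      rw [mem_coe, mem_filter] at hσ
      rw [mem_coe, mem_product, mem_filter]
      exact ⟨mem_univ _, mem_univ _, hσ.2⟩
    · intro σ _ σ' _ h
      rw [Prod.mk.injEq] at h
      exact hinj σ σ' (fun i hi => congrFun h.1 ⟨i, hi⟩) h.2
  refine h1.trans ?_
  rw [card_product]
  refine Nat.mul_le_mul (le_of_eq ?_) (card_small l)
  rw [card_univ, Fintype.card_fun, Fintype.card_bool]
  congr 1
  rw [Fintype.card_subtype_compl]
  simp

/-- the average length of the crossing sequences -/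
theorem average {ι M : Type} [Fintype ι] [DecidableEq ι] [Fintype M] [DecidableEq M]
    (S : Finset ι) (cr : (ι → Bool) → Finset M)
    (hinj : ∀ σ σ' : ι → Bool, (∀ i, i ∉ S → σ i = σ' i) → cr σ = cr σ' → σ = σ') (L : ℕ)
    (hL : 1 ≤ L) (hM : Fintype.card M + 1 ≤ 2 ^ L) :
    2 ^ Fintype.card ι * S.card ≤ 2 * L * ∑ σ : ι → Bool, (cr σ).card := by
  classical
  rcases Nat.eq_zero_or_pos S.card with h0 | hpos
  · rw [h0]; simp
  obtain ⟨l, hl⟩ : ∃ l, l = (S.card - 1) / L := ⟨_, rfl⟩
  have hl1 : L * l ≤ S.card - 1 := by rw [hl]; exact Nat.mul_div_le _ _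
  have hl2 : S.card ≤ L * (l + 1) := by
    have : S.card - 1 < L * (l + 1) := by
      rw [hl]
      exact Nat.lt_mul_div_succ _ (by omega)
    omega
  have hSle : S.card ≤ Fintype.card ι := by
    rw [← card_univ]
    exact card_le_card (subset_univ _)
  have h1 : (univ.filter fun σ : ι → Bool => (cr σ).card ≤ l).card ≤
      2 ^ (Fintype.card ι - 1) := by
    refine (few S cr hinj l).trans ?_
    calc 2 ^ (Fintype.card ι - S.card) * (Fintype.card M + 1) ^ l
        ≤ 2 ^ (Fintype.card ι - S.card) * (2 ^ L) ^ l := by gcongr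
      _ = 2 ^ (Fintype.card ι - S.card + L * l) := by rw [← pow_mul, ← pow_add]
      _ ≤ 2 ^ (Fintype.card ι - 1) := Nat.pow_le_pow_right (by norm_num) (by omega)
  have h2 := card_filter_add_card_filter_not (s := (univ : Finset (ι → Bool)))
    (p := fun σ => (cr σ).card ≤ l)
  rw [card_univ, Fintype.card_fun, Fintype.card_bool] at h2
  have h3 : 2 ^ Fintype.card ι = 2 * 2 ^ (Fintype.card ι - 1) := by
    rw [← pow_succ']
    congr 1
    omega
  have h4 : 2 ^ (Fintype.card ι - 1) ≤
      (univ.filter fun σ : ι → Bool => ¬ (cr σ).card ≤ l).card := by omega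
  have h5 : (univ.filter fun σ : ι → Bool => ¬ (cr σ).card ≤ l).card * (l + 1) ≤
      ∑ σ : ι → Bool, (cr σ).card := by
    calc _ = ∑ σ ∈ univ.filter fun σ : ι → Bool => ¬ (cr σ).card ≤ l, (l + 1) := by
          rw [sum_const, smul_eq_mul]
      _ ≤ ∑ σ ∈ univ.filter fun σ : ι → Bool => ¬ (cr σ).card ≤ l, (cr σ).card := by
          refine sum_le_sum fun σ hσ => ?_
          rw [mem_filter] at hσ
          omega
      _ ≤ _ := sum_le_sum_of_subset (filter_subset _ _)
  calc 2 ^ Fintype.card ι * S.card ≤ (2 * 2 ^ (Fintype.card ι - 1)) * (L * (l + 1)) := by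
        rw [h3]
        exact Nat.mul_le_mul_left _ hl2
    _ = 2 * L * (2 ^ (Fintype.card ι - 1) * (l + 1)) := by ring
    _ ≤ 2 * L * ∑ σ : ι → Bool, (cr σ).card := by
        refine Nat.mul_le_mul_left _ (le_trans ?_ h5)
        exact Nat.mul_le_mul_right _ h4

end Pool.Agent.K4H91.PM
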