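import Pool.Agent.K4H91.PM.Avg
import Pool.Agent.K4H91.PM.Model
import Pool.Agent.K4H91.PM.Geom
import Pool.Agent.TH697.Apsp.Defs

set_option autoImplicit false

/-! # Computing shortest paths in the plane grid -/

namespace Pool.Agent.K4H91.PM

open Finset

variable {n : ℕ}

/-- `w` is the weight matrix of the complete directed graph on `n` vertices, with weights `1`, `2`,
`3` -/
def IsWeights (w : Fin n → Fin n → ℕ) : Prop :=
  (∀ a, w a a = 0) ∧ ∀ a b, a ≠ b → w a b = 1 ∨ w a b = 2 ∨ w a b = 3

/-- each edge is a shortest path -/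
def AllShortest (w : Fin n → Fin n → ℕ) : Prop :=
  ∀ a b, Pool.Agent.TH697.Apsp.dist w a b = w a b

open Classical in
/-- The input of the cells: the cell `pos a b` contains the weight of the edge from `a` to `b`, the
other cells contain nothing. -/
noncomputable def inp (pos : Fin n → Fin n → ℤ × ℤ) (w : Fin n → Fin n → ℕ) (p : ℤ × ℤ) :
    Option ℕ :=
  if h : ∃ q : Fin n × Fin n, q.1 ≠ q.2 ∧ pos q.1 q.2 = p then some (w h.choose.1 h.choose.2)
  else none

theorem inp_mix (pos : Fin n → Fin n → ℤ × ℤ) (w w' : Fin n → Fin n → ℕ) (side : ℤ × ℤ → Prop)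
    [DecidablePred side] :
    inp pos (fun a b => if side (pos a b) then w a b else w' a b) =
      fun p => if side p then inp pos w p else inp pos w' p := by
  classical
  funext p
  unfold inp
  by_cases h : ∃ q : Fin n × Fin n, q.1 ≠ q.2 ∧ pos q.1 q.2 = p
  · simp only [dif_pos h]
    have h1 := h.choose_spec.2
    by_cases hs : side p
    · simp only [h1, hs, if_true]
    · simp only [h1, hs, if_false]
  · simp only [dif_neg h, ite_self]

/-! ## distances -/

theorem le_len {V : Type} (w : V → V → ℕ) (h : ∀ u x v, w u v ≤ w u x + w x v) (l : List V) :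
    ∀ u v, w u v ≤ Pool.Agent.TH697.Apsp.len w u l v := by
  induction l with
  | nil => intro u v; exact le_rfl
  | cons x l ih =>
    intro u v
    exact (h u x v).trans (Nat.add_le_add_left (ih x v) _)

theorem allShortest_iff (w : Fin n → Fin n → ℕ) :
    AllShortest w ↔ ∀ u x v, w u v ≤ w u x + w x v := by
  constructor
  · intro h u x v
    rw [← h u v]
    exact Nat.sInf_le ⟨[x], rfl⟩
  · intro h u v
    apply le_antisymm
    · exact Nat.sInf_le ⟨[], rfl⟩
    · have hne : (Set.range fun l => Pool.Agent.TH697.Apsp.len w u l v).Nonempty := ⟨_, [], rfl⟩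
      obtain ⟨l, hl⟩ := Nat.sInf_mem hne
      unfold Pool.Agent.TH697.Apsp.dist
      rw [← hl]
      exact le_len w h l u v

/-! ## the inputs -/

/-- the weights: `w i (i + 2 m) = 3`, `w i k = 1` if `σ i k`, `w k (i + 2 m) = 1` if not `σ i k`, for
`i < m ≤ k < 2 m` -/
def W0 (m : ℕ) (σ : Fin n × Fin n → Bool) (a b : Fin n) : ℕ :=
  if a = b then 0
  else if a.val < m ∧ b.val = a.val + 2 * m then 3
  else if a.val < m ∧ m ≤ b.val ∧ b.val < 2 * m ∧ σ (a, b) = true then 1
  else if m ≤ a.val ∧ a.val < 2 * m ∧ 2 * m ≤ b.val ∧ b.val < 3 * m ∧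
    σ (⟨b.val - 2 * m, by omega⟩, a) = false then 1
  else 2

theorem W0_range (m : ℕ) (σ : Fin n × Fin n → Bool) (a b : Fin n) (h : a ≠ b) :
    W0 m σ a b = 1 ∨ W0 m σ a b = 2 ∨ W0 m σ a b = 3 := by
  unfold W0
  rw [if_neg h]
  split_ifs <;> simp

theorem W0_three {m : ℕ} {σ : Fin n × Fin n → Bool} {a b : Fin n} (h : W0 m σ a b = 3) :
    a.val < m ∧ b.val = a.val + 2 * m := by
  unfold W0 at h
  split_ifs at h with h1 h2 h3 h4
  · exact h2
  all_goals omega

theorem W0_one {m : ℕ} {σ : Fin n × Fin n → Bool} {a b : Fin n} (h : W0 m σ a b = 1) :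
    (a.val < m ∧ m ≤ b.val ∧ b.val < 2 * m ∧ σ (a, b) = true) ∨
    (m ≤ a.val ∧ a.val < 2 * m ∧ 2 * m ≤ b.val ∧ b.val < 3 * m ∧
      σ (⟨b.val - 2 * m, by omega⟩, a) = false) := by
  unfold W0 at h
  split_ifs at h with h1 h2 h3 h4
  · omega
  · exact Or.inl h3
  · exact Or.inr h4
  · omega

theorem W0_tri (m : ℕ) (σ : Fin n × Fin n → Bool) (a b c : Fin n) :
    W0 m σ a c ≤ W0 m σ a b + W0 m σ b c := by
  by_cases hab : a = b
  · subst hab
    have : W0 m σ a a = 0 := by unfold W0; rw [if_pos rfl]
    omega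
  by_cases hbc : b = c
  · subst hbc
    have : W0 m σ b b = 0 := by unfold W0; rw [if_pos rfl]
    omega
  by_cases hac : a = c
  · subst hac
    have : W0 m σ a a = 0 := by unfold W0; rw [if_pos rfl]
    omega
  have r1 := W0_range m σ a b hab
  have r2 := W0_range m σ b c hbc
  have r3 := W0_range m σ a c hac
  rcases r3 with h | h | h
  · omega
  · omega
  · obtain ⟨h1, h2⟩ := W0_three h
    by_contra hcon
    have e1 : W0 m σ a b = 1 := by omega
    have e2 : W0 m σ b c = 1 := by omega
    rcases W0_one e1 with g2 | g2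
    · rcases W0_one e2 with k2 | k2
      · omega
      · have : (⟨c.val - 2 * m, by omega⟩ : Fin n) = a := Fin.ext (by simp only; omega)
        rw [this, g2.2.2.2] at k2
        exact Bool.noConfusion k2.2.2.2.2
    · omega

/-- the weights for a permutation `g` of the vertices -/
def W (m : ℕ) (g : Equiv.Perm (Fin n)) (σ : Fin n × Fin n → Bool) (a b : Fin n) : ℕ :=
  W0 m σ (g.symm a) (g.symm b)

theorem W_weights (m : ℕ) (g : Equiv.Perm (Fin n)) (σ : Fin n × Fin n → Bool) :
    IsWeights (W m g σ) := by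
  constructor
  · intro a
    unfold W W0
    rw [if_pos rfl]
  · intro a b h
    exact W0_range m σ _ _ (fun h' => h (g.symm.injective h'))

theorem W_short (m : ℕ) (g : Equiv.Perm (Fin n)) (σ : Fin n × Fin n → Bool) :
    AllShortest (W m g σ) := by
  rw [allShortest_iff]
  intro u x v
  exact W0_tri m σ _ _ _

/-- the partner of the vertex `i` -/
def up (m : ℕ) (i : Fin n) : Fin n := if h : i.val + 2 * m < n then ⟨i.val + 2 * m, h⟩ else i

theorem up_val {m : ℕ} (hm : 3 * m ≤ n) {i : Fin n} (hi : i.val < m) :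
    (up m i).val = i.val + 2 * m := by
  unfold up
  rw [dif_pos (by omega)]

/-- the split pairs -/
def Spl (m : ℕ) (g : Equiv.Perm (Fin n)) (X : Fin n → Fin n → Prop) [∀ a b, Decidable (X a b)] :
    Finset (Fin n × Fin n) :=
  univ.filter fun q => q.1.val < m ∧ m ≤ q.2.val ∧ q.2.val < 2 * m ∧
    ¬ (X (g q.1) (g q.2) ↔ X (g q.2) (g (up m q.1)))

theorem mix_not_short {m : ℕ} (hm : 3 * m ≤ n) (g : Equiv.Perm (Fin n))
    (σ σ' : Fin n × Fin n → Bool) (c : Fin n → Fin n → Prop) [∀ a b, Decidable (c a b)]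
    (i k : Fin n) (hi : i.val < m) (hk1 : m ≤ k.val) (hk2 : k.val < 2 * m) (h1 : c (g i) (g k))
    (h2 : ¬ c (g k) (g (up m i))) (hσ : σ (i, k) = true) (hσ' : σ' (i, k) = false) :
    ¬ AllShortest (fun a b => if c a b then W m g σ a b else W m g σ' a b) := by
  rw [allShortest_iff]
  intro h
  have hu := up_val hm hi
  have hik : i ≠ k := fun h => by rw [h] at hi; omega
  have hku : k ≠ up m i := fun h => by rw [← h] at hu; omega
  have hiu : i ≠ up m i := fun h => by rw [← h] at hu; omega
  have h3 := h (g i) (g k) (g (up m i))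
  have e1 : W m g σ (g i) (g k) = 1 := by
    unfold W W0
    simp only [Equiv.symm_apply_apply]
    rw [if_neg hik, if_neg (by omega), if_pos ⟨hi, hk1, hk2, hσ⟩]
  have e2 : W m g σ' (g k) (g (up m i)) = 1 := by
    unfold W W0
    simp only [Equiv.symm_apply_apply]
    rw [if_neg hku, if_neg (by omega), if_neg (by omega), if_pos]
    refine ⟨hk1, hk2, by omega, by omega, ?_⟩
    have : (⟨(up m i).val - 2 * m, by omega⟩ : Fin n) = i := Fin.ext (by simp only; omega)
    rw [this, hσ']
  have e3 : ∀ σ, W m g σ (g i) (g (up m i)) = 3 := by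
    intro σ
    unfold W W0
    simp only [Equiv.symm_apply_apply]
    rw [if_neg hiu, if_pos ⟨hi, hu⟩]
  simp only [if_pos h1, if_neg h2, e1, e2, e3, ite_self] at h3
  omega

/-! ## one cut -/

/-- The crossing messages determine the input up to the bits which are not split. -/
theorem fool (P : Grid) (pos : Fin n → Fin n → ℤ × ℤ) {m : ℕ} (hm : 3 * m ≤ n)
    (hsound : ∀ w : Fin n → Fin n → ℕ, IsWeights w → ¬ AllShortest w →
      ∀ T, ¬ P.Accepts (inp pos w) T)
    (g : Equiv.Perm (Fin n)) (R : (Fin n × Fin n → Bool) → Finset P.Msg)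
    (hR : ∀ σ p, P.ok p (inp pos (W m g σ) p) {μ | μ ∈ R σ ∧ (P.src μ = p ∨ P.dst μ = p)})
    (side : ℤ × ℤ → Prop) [DecidablePred side] (σ σ' : Fin n × Fin n → Bool)
    (h1 : ∀ q, q ∉ Spl m g (fun a b => side (pos a b)) → σ q = σ' q)
    (h2 : (R σ).filter (fun μ => ¬ (side (P.src μ) ↔ side (P.dst μ))) =
      (R σ').filter (fun μ => ¬ (side (P.src μ) ↔ side (P.dst μ)))) : σ = σ' := by
  classical
  -- mixtures are accepted
  have hmix : ∀ σ σ' : Fin n × Fin n → Bool,
      (R σ).filter (fun μ => ¬ (side (P.src μ) ↔ side (P.dst μ))) =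
        (R σ').filter (fun μ => ¬ (side (P.src μ) ↔ side (P.dst μ))) →
      AllShortest (fun a b => if side (pos a b) then W m g σ a b else W m g σ' a b) := by
    intro σ σ' h
    by_contra hns
    have hw : IsWeights (fun a b => if side (pos a b) then W m g σ a b else W m g σ' a b) := by
      constructor
      · intro a
        simp only [(W_weights m g σ).1, (W_weights m g σ').1, ite_self]
      · intro a b hab
        have k1 := (W_weights m g σ).2 a b hab
        have k2 := (W_weights m g σ').2 a b hab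
        simp only
        split_ifs
        · exact k1
        · exact k2
    obtain ⟨T, hT⟩ := paste P side _ _ (R σ) (R σ') (hR σ) (hR σ') (by
      intro μ hμ
      have := congrArg (fun A => μ ∈ A) h
      simp only [mem_filter, hμ, not_false_eq_true, and_true] at this
      exact Iff.of_eq this)
    refine hsound _ hw hns T ?_
    rw [inp_mix]
    exact hT
  by_contra hne
  obtain ⟨q, hq⟩ : ∃ q, σ q ≠ σ' q := by
    by_contra hcon
    push Not at hcon
    exact hne (funext hcon)
  have hS : q ∈ Spl m g (fun a b => side (pos a b)) := by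
    by_contra hS
    exact hq (h1 q hS)
  unfold Spl at hS
  rw [mem_filter] at hS
  obtain ⟨-, s1, s2, s3, s4⟩ := hS
  -- the general step
  have step : ∀ τ τ' : Fin n × Fin n → Bool,
      (R τ).filter (fun μ => ¬ (side (P.src μ) ↔ side (P.dst μ))) =
        (R τ').filter (fun μ => ¬ (side (P.src μ) ↔ side (P.dst μ))) →
      τ q = true → τ' q = false → False := by
    intro τ τ' hc ht ht'
    by_cases hs : side (pos (g q.1) (g q.2))
    · have hs2 : ¬ side (pos (g q.2) (g (up m q.1))) := fun h => s4 ⟨fun _ => h, fun _ => hs⟩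
      exact mix_not_short hm g τ τ' (fun a b => side (pos a b)) q.1 q.2 s1 s2 s3 hs hs2 ht ht'
        (hmix τ τ' hc)
    · have hs2 : side (pos (g q.2) (g (up m q.1))) := by
        by_contra h
        exact s4 ⟨fun h' => absurd h' hs, fun h' => absurd h' h⟩
      have h3 := mix_not_short hm g τ τ' (fun a b => ¬ side (pos a b)) q.1 q.2 s1 s2 s3 hs
        (not_not.2 hs2) ht ht'
      refine h3 ?_
      have h4 := hmix τ' τ hc.symm
      convert! h4 using 3 with a b
      by_cases h5 : side (pos a b) <;> simp [h5]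
  rcases hb : σ q with _ | _
  · have hb' : σ' q = true := by
      rcases hb'' : σ' q with _ | _
      · exact absurd (hb.trans hb''.symm) hq
      · rfl
    exact step σ' σ h2.symm hb' hb
  · have hb' : σ' q = false := by
      rcases hb'' : σ' q with _ | _
      · rfl
      · exact absurd (hb.trans hb''.symm) hq
    exact step σ σ' h2 hb hb'

end Pool.Agent.K4H91.PM
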