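import Mathlib

set_option autoImplicit false

/-! # Balanced partitions of the pairs of vertices split many paths of two edges -/

namespace Pool.Agent.K4H91.PM

open Finset

variable {n : ℕ}

/-- the pairs `(a, b)`, `a ≠ b`, of the class `X` -/
def inX (X : Fin n → Fin n → Prop) [∀ a b, Decidable (X a b)] (b : Fin n) : ℕ :=
  (univ.filter fun a => a ≠ b ∧ X a b).card

def outX (X : Fin n → Fin n → Prop) [∀ a b, Decidable (X a b)] (b : Fin n) : ℕ :=
  (univ.filter fun d => b ≠ d ∧ X b d).card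

theorem card_ne (b : Fin n) : (univ.filter fun a : Fin n => a ≠ b).card = n - 1 := by
  rw [filter_ne' univ b, card_erase_of_mem (mem_univ _), card_univ, Fintype.card_fin]

theorem inX_add (X : Fin n → Fin n → Prop) [∀ a b, Decidable (X a b)] (b : Fin n) :
    inX X b + (univ.filter fun a => a ≠ b ∧ ¬ X a b).card = n - 1 := by
  have h := card_filter_add_card_filter_not (s := univ.filter fun a : Fin n => a ≠ b)
    (p := fun a => X a b)
  rw [filter_filter, filter_filter, card_ne] at h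
  exact h

theorem outX_add (X : Fin n → Fin n → Prop) [∀ a b, Decidable (X a b)] (b : Fin n) :
    outX X b + (univ.filter fun d => b ≠ d ∧ ¬ X b d).card = n - 1 := by
  have h := card_filter_add_card_filter_not (s := univ.filter fun d : Fin n => b ≠ d)
    (p := fun d => X b d)
  rw [filter_filter, filter_filter] at h
  have e : (univ.filter fun d : Fin n => b ≠ d) = univ.filter fun a : Fin n => a ≠ b :=
    filter_congr fun d _ => ne_comm
  rw [e, card_ne] at h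
  rw [← h]
  rfl

/-- the number of the triples `(a, b, d)`, `a ≠ b`, `b ≠ d`, such that exactly one of the pairs
`(a, b)`, `(b, d)` is in `X` -/
def splits (X : Fin n → Fin n → Prop) [∀ a b, Decidable (X a b)] : ℕ :=
  ∑ b, (univ.filter fun p : Fin n × Fin n => p.1 ≠ b ∧ b ≠ p.2 ∧ ¬ (X p.1 b ↔ X b p.2)).card

theorem splits_eq (X : Fin n → Fin n → Prop) [∀ a b, Decidable (X a b)] (b : Fin n) :
    (univ.filter fun p : Fin n × Fin n => p.1 ≠ b ∧ b ≠ p.2 ∧ ¬ (X p.1 b ↔ X b p.2)).card =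
      inX X b * (n - 1 - outX X b) + (n - 1 - inX X b) * outX X b := by
  have h1 := inX_add X b
  have h2 := outX_add X b
  have e1 : n - 1 - outX X b = (univ.filter fun d => b ≠ d ∧ ¬ X b d).card := by omega
  have e2 : n - 1 - inX X b = (univ.filter fun a => a ≠ b ∧ ¬ X a b).card := by omega
  rw [e1, e2]
  unfold inX outX
  rw [← card_product, ← card_product, ← card_union_of_disjoint]
  · congr 1
    ext ⟨a, d⟩
    simp only [mem_filter, mem_univ, true_and, mem_union, mem_product]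
    tauto
  · rw [Finset.disjoint_left]
    rintro ⟨a, d⟩ h3 h4
    simp only [mem_filter, mem_univ, true_and, mem_product] at h3 h4
    exact h4.1.2 h3.1.2

theorem sum_in_eq_sum_out (X : Fin n → Fin n → Prop) [∀ a b, Decidable (X a b)] :
    ∑ b, inX X b = ∑ b, outX X b := by
  unfold inX outX
  simp_rw [card_filter]
  rw [sum_comm]

theorem splits_ge (X : Fin n → Fin n → Prop) [∀ a b, Decidable (X a b)] (hn : 2 ≤ n)
    (h1 : n * (n - 1) ≤ 8 * ∑ b, inX X b)
    (h2 : n * (n - 1) ≤ 8 * ∑ b, (n - 1 - inX X b)) :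
    (n : ℝ) * ((n : ℝ) - 1) ^ 2 ≤ 56 * (splits X : ℝ) := by
  classical
  obtain ⟨N, hN⟩ : ∃ N : ℝ, N = (n : ℝ) - 1 := ⟨_, rfl⟩
  have hn1 : ((n - 1 : ℕ) : ℝ) = N := by rw [hN, Nat.cast_sub (by omega)]; simp
  have hN1 : 1 ≤ N := by
    rw [hN]
    have : (2 : ℝ) ≤ n := by exact_mod_cast hn
    linarith
  obtain ⟨x, hx⟩ : ∃ x : Fin n → ℝ, ∀ b, x b = inX X b := ⟨_, fun _ => rfl⟩
  obtain ⟨y, hy⟩ : ∃ y : Fin n → ℝ, ∀ b, y b = outX X b := ⟨_, fun _ => rfl⟩
  obtain ⟨s, hs⟩ : ∃ s : Fin n → ℝ, ∀ b, s b = x b * (N - y b) + (N - x b) * y b :=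
    ⟨_, fun _ => rfl⟩
  have hin : ∀ b, inX X b ≤ n - 1 := fun b => by have := inX_add X b; omega
  have hout : ∀ b, outX X b ≤ n - 1 := fun b => by have := outX_add X b; omega
  have hx0 : ∀ b, 0 ≤ x b := fun b => by rw [hx]; positivity
  have hy0 : ∀ b, 0 ≤ y b := fun b => by rw [hy]; positivity
  have hx1 : ∀ b, x b ≤ N := fun b => by rw [hx, ← hn1]; exact_mod_cast hin b
  have hy1 : ∀ b, y b ≤ N := fun b => by rw [hy, ← hn1]; exact_mod_cast hout b
  have hS : (splits X : ℝ) = ∑ b, s b := by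
    unfold splits
    rw [Nat.cast_sum]
    refine sum_congr rfl fun b _ => ?_
    rw [splits_eq, Nat.cast_add, Nat.cast_mul, Nat.cast_mul, Nat.cast_sub (hout b),
      Nat.cast_sub (hin b), hn1, ← hx, ← hy, hs]
  -- the vertices of large in-degree
  obtain ⟨H, hH⟩ : ∃ H : Finset (Fin n), H = univ.filter fun b => N < 2 * x b := ⟨_, rfl⟩
  have hmemH : ∀ b, b ∈ H ↔ N < 2 * x b := fun b => by rw [hH]; simp
  have hlow : ∀ b, b ∉ H → N * x b ≤ s b := by
    intro b hb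
    rw [hmemH, not_lt] at hb
    rw [hs]
    nlinarith [hx0 b, hy0 b, hx1 b, hy1 b, mul_nonneg (hy0 b) (by linarith : 0 ≤ N - 2 * x b)]
  have hhigh : ∀ b, b ∈ H → N * (N - x b) ≤ s b := by
    intro b hb
    rw [hmemH] at hb
    rw [hs]
    nlinarith [hx0 b, hy0 b, hx1 b, hy1 b,
      mul_nonneg (by linarith [hy1 b] : 0 ≤ N - y b) (by linarith : 0 ≤ 2 * x b - N)]
  have hout2 : ∀ b, b ∈ H → N * (N - y b) ≤ 2 * s b := by
    intro b hb
    rw [hmemH] at hb
    rw [hs]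
    nlinarith [hx0 b, hy0 b, hx1 b, hy1 b,
      mul_nonneg (by linarith [hy1 b] : 0 ≤ N - y b) (by linarith : 0 ≤ 2 * x b - N),
      mul_nonneg (by linarith [hx1 b] : 0 ≤ N - x b) (hy0 b)]
  have hs0 : ∀ b, 0 ≤ s b := by
    intro b
    rw [hs]
    have := mul_nonneg (hx0 b) (by linarith [hy1 b] : 0 ≤ N - y b)
    have := mul_nonneg (by linarith [hx1 b] : 0 ≤ N - x b) (hy0 b)
    linarith
  obtain ⟨S, hSdef⟩ : ∃ S : ℝ, S = ∑ b, s b := ⟨_, rfl⟩
  have hsplit : ∑ b ∈ H, s b + ∑ b ∈ Hᶜ, s b = S := by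
    rw [hSdef, sum_add_sum_compl]
  have hSH0 : 0 ≤ ∑ b ∈ H, s b := sum_nonneg fun b _ => hs0 b
  have hSHc0 : 0 ≤ ∑ b ∈ Hᶜ, s b := sum_nonneg fun b _ => hs0 b
  have c1 : N * ∑ b ∈ Hᶜ, x b ≤ ∑ b ∈ Hᶜ, s b := by
    rw [mul_sum]
    exact sum_le_sum fun b hb => hlow b (mem_compl.1 hb)
  have c2 : N * ∑ b ∈ H, (N - x b) ≤ ∑ b ∈ H, s b := by
    rw [mul_sum]
    exact sum_le_sum fun b hb => hhigh b hb
  have c3 : N * ∑ b ∈ H, (N - y b) ≤ 2 * ∑ b ∈ H, s b := by
    rw [mul_sum, mul_sum]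
    exact sum_le_sum fun b hb => hout2 b hb
  -- the pairs from `H` to the complement
  have c4 : (H.card : ℝ) * (Hᶜ.card : ℝ) ≤ ∑ b ∈ Hᶜ, x b + ∑ b ∈ H, (N - y b) := by
    have d1 : ∑ b ∈ Hᶜ, ((H.filter fun a => X a b).card : ℝ) ≤ ∑ b ∈ Hᶜ, x b := by
      refine sum_le_sum fun b hb => ?_
      rw [hx]
      unfold inX
      exact_mod_cast card_le_card (fun a ha => by
        rw [mem_filter] at ha ⊢
        exact ⟨mem_univ _, fun h => (mem_compl.1 hb) (h ▸ ha.1), ha.2⟩)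
    have d2 : ∑ a ∈ H, ((Hᶜ.filter fun b => ¬ X a b).card : ℝ) ≤ ∑ b ∈ H, (N - y b) := by
      refine sum_le_sum fun a ha => ?_
      have h3 := outX_add X a
      have h4 : N - y a = ((univ.filter fun d => a ≠ d ∧ ¬ X a d).card : ℝ) := by
        rw [hy, ← hn1, ← h3]
        push_cast
        ring
      rw [h4]
      exact_mod_cast card_le_card (fun b hb => by
        rw [mem_filter] at hb ⊢
        exact ⟨mem_univ _, fun h => (mem_compl.1 hb.1) (h ▸ ha), hb.2⟩)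
    have d3 : ∑ b ∈ Hᶜ, ((H.filter fun a => X a b).card : ℝ) =
        ∑ a ∈ H, ((Hᶜ.filter fun b => X a b).card : ℝ) := by
      simp_rw [card_filter, Nat.cast_sum]
      rw [sum_comm]
    have d4 : ∑ a ∈ H, ((Hᶜ.filter fun b => X a b).card : ℝ) +
        ∑ a ∈ H, ((Hᶜ.filter fun b => ¬ X a b).card : ℝ) = (H.card : ℝ) * (Hᶜ.card : ℝ) := by
      rw [← sum_add_distrib]
      have : ∀ a ∈ H, (((Hᶜ.filter fun b => X a b).card : ℝ) +
          ((Hᶜ.filter fun b => ¬ X a b).card : ℝ)) = (Hᶜ.card : ℝ) := by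
        intro a _
        exact_mod_cast card_filter_add_card_filter_not (s := Hᶜ) (p := fun b => X a b)
      rw [sum_congr rfl this, sum_const, nsmul_eq_mul]
    linarith
  have c5 : N * ((H.card : ℝ) * (Hᶜ.card : ℝ)) ≤ 3 * S := by
    have := mul_le_mul_of_nonneg_left c4 (by linarith : (0 : ℝ) ≤ N)
    rw [mul_add] at this
    linarith
  -- balance
  have hcards : (H.card : ℝ) + (Hᶜ.card : ℝ) = n := by
    have := card_add_card_compl H
    rw [Fintype.card_fin] at this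
    exact_mod_cast this
  have b1 : (n : ℝ) * N ≤ 8 * ∑ b, x b := by
    have : ((n * (n - 1) : ℕ) : ℝ) ≤ ((8 * ∑ b, inX X b : ℕ) : ℝ) := by exact_mod_cast h1
    push_cast at this
    rw [hn1] at this
    simp only [hx]
    exact this
  have b2 : (n : ℝ) * N ≤ 8 * ∑ b, (N - x b) := by
    have : ((n * (n - 1) : ℕ) : ℝ) ≤ ((8 * ∑ b, (n - 1 - inX X b) : ℕ) : ℝ) := by
      exact_mod_cast h2
    rw [Nat.cast_mul, Nat.cast_mul, Nat.cast_sum, hn1] at this
    have e : ∀ b, (((n - 1 - inX X b : ℕ)) : ℝ) = N - x b := fun b => by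
      rw [Nat.cast_sub (hin b), hn1, hx]
    simp only [e] at this
    exact_mod_cast this
  have b3 : ∑ b, x b ≤ (H.card : ℝ) * N + ∑ b ∈ Hᶜ, x b := by
    rw [← sum_add_sum_compl H]
    have : ∑ b ∈ H, x b ≤ ∑ _b ∈ H, N := sum_le_sum fun b _ => hx1 b
    rw [sum_const, nsmul_eq_mul] at this
    linarith
  have b4 : ∑ b, (N - x b) ≤ (Hᶜ.card : ℝ) * N + ∑ b ∈ H, (N - x b) := by
    rw [← sum_add_sum_compl H]
    have : ∑ b ∈ Hᶜ, (N - x b) ≤ ∑ _b ∈ Hᶜ, N := sum_le_sum fun b _ => by linarith [hx0 b]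
    rw [sum_const, nsmul_eq_mul] at this
    linarith
  -- the end
  rw [hS, ← hSdef, ← hN]
  by_contra hcon
  push Not at hcon
  obtain ⟨τ, hτ⟩ : ∃ τ : ℝ, S = τ * (N * N) := ⟨S / (N * N), by field_simp⟩
  have hN0 : 0 < N := by linarith
  have hτ0 : 0 ≤ τ := by
    by_contra hneg
    push Not at hneg
    have : S < 0 := by
      rw [hτ]
      exact mul_neg_of_neg_of_pos hneg (by positivity)
    linarith
  have e1 : τ < n / 56 := by
    rw [hτ] at hcon
    have h3 : 56 * τ * (N * N) < n * (N * N) := by nlinarith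
    have h4 := lt_of_mul_lt_mul_right h3 (by positivity)
    linarith
  have e2 : (n : ℝ) / 8 - τ ≤ H.card := by
    have h3 : N * ((n : ℝ) * N) ≤ 8 * ((H.card : ℝ) * (N * N) + τ * (N * N)) := by
      have := mul_le_mul_of_nonneg_left (b1.trans (mul_le_mul_of_nonneg_left b3 (by norm_num)))
        hN0.le
      rw [← hτ]
      nlinarith
    have h4 : ((n : ℝ) / 8) * (N * N) ≤ (H.card + τ) * (N * N) := by nlinarith
    have h5 := le_of_mul_le_mul_right h4 (by positivity)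
    linarith
  have e3 : (n : ℝ) / 8 - τ ≤ Hᶜ.card := by
    have h3 : N * ((n : ℝ) * N) ≤ 8 * ((Hᶜ.card : ℝ) * (N * N) + τ * (N * N)) := by
      have := mul_le_mul_of_nonneg_left (b2.trans (mul_le_mul_of_nonneg_left b4 (by norm_num)))
        hN0.le
      rw [← hτ]
      nlinarith
    have h4 : ((n : ℝ) / 8) * (N * N) ≤ (Hᶜ.card + τ) * (N * N) := by nlinarith
    have h5 := le_of_mul_le_mul_right h4 (by positivity)
    linarith
  have e4 : (H.card : ℝ) * (Hᶜ.card : ℝ) ≤ 3 * τ * N := by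
    rw [hτ] at c5
    have h3 : ((H.card : ℝ) * (Hᶜ.card : ℝ)) * N ≤ (3 * τ * N) * N := by nlinarith
    exact le_of_mul_le_mul_right h3 hN0
  have hnn : N ≤ n := by rw [hN]; linarith
  have hn0 : (0 : ℝ) < n := by linarith
  have e5 : 3 * τ * N ≤ 3 * τ * n := by
    have := mul_le_mul_of_nonneg_left hnn (by positivity : (0 : ℝ) ≤ 3 * τ)
    linarith
  have e6 : (Hᶜ.card : ℝ) = n - H.card := by linarith
  rw [e6] at e3 e4
  obtain ⟨h, hh⟩ : ∃ h : ℝ, h = H.card := ⟨_, rfl⟩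
  rw [← hh] at e2 e3 e4
  have e7 : 0 ≤ (h - (n / 8 - τ)) * ((n - h) - (n / 8 - τ)) :=
    mul_nonneg (by linarith) (by linarith)
  nlinarith [mul_pos hn0 hn0, mul_nonneg hτ0 hn0.le, mul_nonneg hτ0 hτ0,
    mul_pos hn0 (by linarith : (0 : ℝ) < n / 56 - τ)]

end Pool.Agent.K4H91.PM
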